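import Mathlib
import Pool.Graph.R_pool_sql_team_seeded_843ab51a.V11279.QPc

set_option autoImplicit false

/-!
# q-points among the transfinite Fubini iterates of p-points
-/

namespace Pool.Agent.KS6_4.QP

open Set Filter Pool.Agent.V11279.QP

/-! ### Transfer along injective maps -/

theorem nonprincipal_map {U : Ultrafilter ℕ} (h : Nonprincipal U) {φ : ℕ → ℕ}
    (hφ : Function.Injective φ) : Nonprincipal (U.map φ) := by
  intro n hn
  rw [Ultrafilter.mem_map] at hn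
  exact h.finite_notMem ((finite_singleton n).preimage hφ.injOn) hn

theorem nonprincipal_of_map {U : Ultrafilter ℕ} {φ : ℕ → ℕ}
    (h : Nonprincipal (U.map φ)) : Nonprincipal U := by
  intro n hn
  refine h (φ n) ?_
  rw [Ultrafilter.mem_map]
  refine mem_of_superset hn ?_
  rintro _ rfl
  rfl

theorem qPoint_map {U : Ultrafilter ℕ} (h : IsQPoint U) {φ : ℕ → ℕ}
    (hφ : Function.Injective φ) : IsQPoint (U.map φ) := by
  refine ⟨nonprincipal_map h.1 hφ, fun f hf => ?_⟩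
  obtain ⟨X, hX, hi⟩ := h.2 (f ∘ φ) (fun m => (hf m).preimage hφ.injOn)
  refine ⟨φ '' X, image_mem_map hX, ?_⟩
  rintro _ ⟨x, hx, rfl⟩ _ ⟨y, hy, rfl⟩ hxy
  rw [hi hx hy hxy]

theorem qPoint_of_map {U : Ultrafilter ℕ} {φ : ℕ → ℕ} (hφ : Function.Injective φ)
    (h : IsQPoint (U.map φ)) : IsQPoint U := by
  classical
  refine ⟨nonprincipal_of_map h.1, fun f hf => ?_⟩
  obtain ⟨ψ, hψ⟩ := hφ.hasLeftInverse
  obtain ⟨X, hX, hi⟩ := h.2 (fun k => if φ (ψ k) = k then 2 * f (ψ k) else 2 * k + 1) (by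
    intro m
    refine (((hf (m / 2)).image φ).union (finite_singleton (m / 2))).subset ?_
    intro k hk
    have hk' : (if φ (ψ k) = k then 2 * f (ψ k) else 2 * k + 1) = m := hk
    split_ifs at hk' with h1
    · left
      refine ⟨ψ k, ?_, h1⟩
      show f (ψ k) = m / 2
      omega
    · right
      show k = m / 2
      omega)
  refine ⟨φ ⁻¹' X, Ultrafilter.mem_map.1 hX, ?_⟩
  intro x hx y hy hxy
  apply hφ
  refine hi hx hy ?_
  show (if φ (ψ (φ x)) = φ x then 2 * f (ψ (φ x)) else 2 * φ x + 1) =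
    (if φ (ψ (φ y)) = φ y then 2 * f (ψ (φ y)) else 2 * φ y + 1)
  rw [hψ x, hψ y, if_pos rfl, if_pos rfl, hxy]

theorem selective_of_map {U : Ultrafilter ℕ} {φ : ℕ → ℕ} (hφ : Function.Injective φ)
    (h : IsSelective (U.map φ)) : IsSelective U := by
  refine ⟨nonprincipal_of_map h.1, fun f => ?_⟩
  obtain ⟨ψ, hψ⟩ := hφ.hasLeftInverse
  rcases h.2 (f ∘ ψ) with ⟨X, hX, c, hc⟩ | ⟨X, hX, hi⟩
  · refine Or.inl ⟨φ ⁻¹' X, Ultrafilter.mem_map.1 hX, c, fun x hx => ?_⟩
    have h1 : f (ψ (φ x)) = c := hc (φ x) hx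
    rwa [hψ x] at h1
  · refine Or.inr ⟨φ ⁻¹' X, Ultrafilter.mem_map.1 hX, fun x hx y hy hxy => hφ (hi hx hy ?_)⟩
    show f (ψ (φ x)) = f (ψ (φ y))
    rw [hψ x, hψ y, hxy]

theorem pPoint_map {U : Ultrafilter ℕ} (h : IsPPoint U) {φ : ℕ → ℕ}
    (hφ : Function.Injective φ) : IsPPoint (U.map φ) := by
  refine ⟨nonprincipal_map h.1 hφ, fun A hA => ?_⟩
  obtain ⟨X, hX, hXf⟩ := h.2 (fun n => φ ⁻¹' (A n)) (fun n => Ultrafilter.mem_map.1 (hA n))
  refine ⟨φ '' X, image_mem_map hX, fun n => ?_⟩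
  refine ((hXf n).image φ).subset ?_
  rintro _ ⟨⟨x, hx, rfl⟩, hxA⟩
  exact ⟨x, ⟨hx, hxA⟩, rfl⟩

/-! ### Re-indexing -/

theorem fubini_map (V : Ultrafilter ℕ) (e : ℕ → ℕ) (Y : ℕ → Ultrafilter ℕ) :
    fubini (V.map e) Y = (fubini V (fun n => Y (e n))).map
      (fun k => Nat.pair (e (Nat.unpair k).1) (Nat.unpair k).2) := by
  apply Ultrafilter.ext
  intro S
  rw [Ultrafilter.mem_map, mem_fubini, mem_fubini, Ultrafilter.mem_map]
  have : (e ⁻¹' {n | {a | Nat.pair n a ∈ S} ∈ Y n}) = {n | {a | Nat.pair n a ∈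
      (fun k => Nat.pair (e (Nat.unpair k).1) (Nat.unpair k).2) ⁻¹' S} ∈ Y (e n)} := by
    ext n
    simp only [mem_preimage, mem_setOf_eq, Nat.unpair_pair]
  rw [this]

theorem pairMap_injective {e : ℕ → ℕ} (he : Function.Injective e) :
    Function.Injective (fun k => Nat.pair (e (Nat.unpair k).1) (Nat.unpair k).2) := by
  intro x y hxy
  obtain ⟨h1, h2⟩ := Nat.pair_eq_pair.1 hxy
  rw [← Nat.pair_unpair x, ← Nat.pair_unpair y, he h1, h2]

theorem reindex {W : Ultrafilter ℕ} (hW : Nonprincipal W) {A : Set ℕ} (hA : A ∈ W) :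
    ∃ (e : ℕ → ℕ) (p : Equiv.Perm ℕ), Function.Injective e ∧ (∀ n, e n ∈ A) ∧
      (W.map p).map e = W := by
  classical
  have hinf : Infinite A := Set.infinite_coe_iff.2 (hW.infinite hA)
  letI := Encodable.ofCountable A
  letI : Denumerable A := Denumerable.ofEncodableOfInfinite A
  let ε : ℕ ≃ A := (Denumerable.eqv A).symm
  let e' : ℕ → ℕ := fun x => if h : x ∈ A then ε.symm ⟨x, h⟩ else 0
  have he' : ∀ x (h : x ∈ A), e' x = ε.symm ⟨x, h⟩ := fun x h => dif_pos h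
  have hinj : InjOn e' A := by
    intro x hx y hy hxy
    rw [he' x hx, he' y hy] at hxy
    have := ε.symm.injective hxy
    exact congrArg Subtype.val this
  obtain ⟨p, X', hX', hp⟩ := exists_perm hW hA hinj
  refine ⟨fun n => (ε n : ℕ), p, fun x y hxy => ε.injective (Subtype.ext hxy),
    fun n => (ε n).2, ?_⟩
  have h1 : (W.map p).map (fun n => (ε n : ℕ)) = W.map (fun x => (ε (p x) : ℕ)) := by
    apply Ultrafilter.ext
    intro S
    rw [Ultrafilter.mem_map, Ultrafilter.mem_map, Ultrafilter.mem_map]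
    rfl
  rw [h1]
  have h2 : W.map (fun x => (ε (p x) : ℕ)) = W.map (fun x => x) := by
    refine map_eq_of_eqOn (inter_mem hX' hA) ?_
    rintro x ⟨hx, hxA⟩
    show (ε (p x) : ℕ) = x
    rw [hp x hx, he' x hxA, Equiv.apply_symm_apply]
  rw [h2]
  apply Ultrafilter.ext
  intro S
  rw [Ultrafilter.mem_map]
  rfl

/-! ### The criterion for limits of p-points -/

theorem criterion_mp {W : Ultrafilter ℕ} {Y : ℕ → Ultrafilter ℕ} (hY : ∀ n, IsPPoint (Y n))
    (hq : IsQPoint (fubini W Y)) :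
    ∃ A ∈ W, (∀ n ∈ A, IsSelective (Y n)) ∧
      ∀ n ∈ A, ∀ m ∈ A, n ≠ m → ¬ Isomorphic (Y n) (Y m) := by
  classical
  have hex : ∀ n, ∃ m, Isomorphic (Y n) (Y m) := fun n => ⟨n, Isomorphic.refl _⟩
  let r : ℕ → ℕ := fun n => Nat.find (hex n)
  have hr : ∀ n, Isomorphic (Y n) (Y (r n)) := fun n => Nat.find_spec (hex n)
  have hrr : ∀ n m, Isomorphic (Y n) (Y m) → r n = r m := by
    intro n m h
    apply le_antisymm
    · exact Nat.find_min' (hex n) (h.trans (hr m))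
    · exact Nat.find_min' (hex m) (h.symm.trans (hr n))
  choose e he using hr
  obtain ⟨X, hX, hi⟩ := hq.2 (fun k => if (Nat.unpair k).1 ≤ e (Nat.unpair k).1 (Nat.unpair k).2
      then 2 * Nat.pair (r (Nat.unpair k).1) (e (Nat.unpair k).1 (Nat.unpair k).2)
      else 2 * k + 1) (by
    intro m
    refine (((finite_Iic (Nat.unpair (m / 2)).2).image (fun n => Nat.pair n
      ((e n).symm (Nat.unpair (m / 2)).2))).union (finite_singleton (m / 2))).subset ?_
    intro k hk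
    have hk' : (if (Nat.unpair k).1 ≤ e (Nat.unpair k).1 (Nat.unpair k).2
      then 2 * Nat.pair (r (Nat.unpair k).1) (e (Nat.unpair k).1 (Nat.unpair k).2)
      else 2 * k + 1) = m := hk
    split_ifs at hk' with hle
    · left
      have h2 : Nat.pair (r (Nat.unpair k).1) (e (Nat.unpair k).1 (Nat.unpair k).2) = m / 2 := by
        omega
      have h3 : e (Nat.unpair k).1 (Nat.unpair k).2 = (Nat.unpair (m / 2)).2 := by
        rw [← h2, Nat.unpair_pair]
      refine ⟨(Nat.unpair k).1, ?_, ?_⟩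
      · show (Nat.unpair k).1 ≤ (Nat.unpair (m / 2)).2
        rw [← h3]
        exact hle
      · show Nat.pair (Nat.unpair k).1 ((e (Nat.unpair k).1).symm (Nat.unpair (m / 2)).2) = k
        rw [← h3, Equiv.symm_apply_apply, Nat.pair_unpair]
    · right
      show k = m / 2
      omega)
  rw [mem_fubini] at hX
  have hsel := qPoint_factors (fun n => (hY n).1) hq
  refine ⟨_, inter_mem hX hsel, fun n hn => selective_of_pPoint_qPoint (hY n) hn.2, ?_⟩
  intro n hn m hm hnm hiso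
  have hrnm := hrr n m hiso
  have hSn : e n '' {a | Nat.pair n a ∈ X} ∈ Y (r n) := by
    rw [← he n]
    exact image_mem_map hn.1
  have hSm : e m '' {a | Nat.pair m a ∈ X} ∈ Y (r n) := by
    rw [hrnm, ← he m]
    exact image_mem_map hm.1
  have hlarge : {b | max n m ≤ b} ∈ Y (r n) := by
    by_contra hcon
    have := Ultrafilter.compl_mem_iff_notMem.2 hcon
    refine (hY (r n)).1.finite_notMem (X := {b | max n m ≤ b}ᶜ) ?_ this
    refine (finite_Iio (max n m)).subset ?_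
    intro b hb
    have : ¬ max n m ≤ b := hb
    exact not_le.1 this
  obtain ⟨b, ⟨⟨a, ha, hab⟩, ⟨a', ha', hab'⟩⟩, hb⟩ :=
    (Y (r n)).nonempty_of_mem (inter_mem (inter_mem hSn hSm) hlarge)
  have hb' : max n m ≤ b := hb
  have key : Nat.pair n a = Nat.pair m a' := by
    apply hi ha ha'
    simp only [Nat.unpair_pair]
    rw [hab, hab', if_pos ((le_max_left n m).trans hb'), if_pos ((le_max_right n m).trans hb'),
      hrnm]
  exact hnm (Nat.pair_eq_pair.1 key).1

theorem criterion_mpr {W : Ultrafilter ℕ} (hW : Nonprincipal W) {Y : ℕ → Ultrafilter ℕ}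
    {A : Set ℕ} (hA : A ∈ W) (h1 : ∀ n ∈ A, IsSelective (Y n))
    (h2 : ∀ n ∈ A, ∀ m ∈ A, n ≠ m → ¬ Isomorphic (Y n) (Y m)) : IsQPoint (fubini W Y) := by
  obtain ⟨e, p, he, heA, hWe⟩ := reindex hW hA
  rw [← hWe, fubini_map]
  refine qPoint_map ?_ (pairMap_injective he)
  exact fubini_qPoint (fun n => h1 _ (heA n))
    (fun n m hnm => h2 _ (heA n) _ (heA m) (fun h => hnm (he h)))

end Pool.Agent.KS6_4.QP
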