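import Mathlib
import Pool.Agent.KS6_4.QP.Cls

set_option autoImplicit false

/-!
# The structure of the transfinite Fubini iterates of p-points
-/

namespace Pool.Agent.KS6_4.QP

open Set Filter Pool.Agent.V11279.QP

/-- The Fubini iterates of p-points of arbitrary (countable, possibly infinite) depth: the least
class of ultrafilters on `ℕ` which contains the p-points, is closed under isomorphism, and contains
`lim_{n → W} Y n` whenever it contains `W` and all `Y n`. -/
inductive IsTransIterate : Ultrafilter ℕ → Prop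
  | base (W : Ultrafilter ℕ) (h : IsPPoint W) : IsTransIterate W
  | iso (W : Ultrafilter ℕ) (e : Equiv.Perm ℕ) (hW : IsTransIterate W) :
      IsTransIterate (W.map e)
  | sum (W : Ultrafilter ℕ) (Y : ℕ → Ultrafilter ℕ) (hW : IsTransIterate W)
      (hY : ∀ n, IsTransIterate (Y n)) : IsTransIterate (fubini W Y)

theorem IsTransIterate.nonprincipal {V : Ultrafilter ℕ} (h : IsTransIterate V) :
    Nonprincipal V := by
  induction h with
  | base W h => exact h.1
  | iso W e _ ih => exact nonprincipal_map ih e.injective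
  | sum W Y _ _ _ ih => exact fubini_nonprincipal ih

theorem IsTransIterate.of_iterate {k : ℕ} {V : Ultrafilter ℕ} (h : IsIterate k V) :
    IsTransIterate V := by
  induction h with
  | base W h => exact .base W h
  | mono j W _ ih => exact ih
  | sum j W Y hW _ ih => exact .sum W Y (.base W hW) ih

theorem IsTransIterate.map {V : Ultrafilter ℕ} (h : IsTransIterate V) {φ : ℕ → ℕ}
    (hφ : Function.Injective φ) : IsTransIterate (V.map φ) := by
  obtain ⟨p, X', hX', hp⟩ := exists_perm h.nonprincipal (univ_mem : (univ : Set ℕ) ∈ V)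
    (hφ.injOn (s := univ))
  rw [← map_eq_of_eqOn hX' hp]
  exact .iso V p h

theorem structure_thm {V : Ultrafilter ℕ} (h : IsTransIterate V) :
    IsPPoint V ∨ ∃ (W : Ultrafilter ℕ) (Y : ℕ → Ultrafilter ℕ) (φ : ℕ → ℕ),
      IsTransIterate W ∧ (∀ n, IsPPoint (Y n)) ∧ Function.Injective φ ∧
        V = (fubini W Y).map φ := by
  classical
  induction h with
  | base W h => exact Or.inl h
  | iso W e _ ih =>
    rcases ih with h | ⟨W', Y, φ, h1, h2, h3, h4⟩
    · exact Or.inl (pPoint_map h e.injective)
    · refine Or.inr ⟨W', Y, e ∘ φ, h1, h2, e.injective.comp h3, ?_⟩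
      rw [h4]
      apply Ultrafilter.ext
      intro S
      rw [Ultrafilter.mem_map, Ultrafilter.mem_map, Ultrafilter.mem_map]
      rfl
  | sum W Y hW hY ihW ih =>
    right
    by_cases hP : {n | IsPPoint (Y n)} ∈ W
    · obtain ⟨n0, hn0⟩ := W.nonempty_of_mem hP
      refine ⟨W, fun n => if IsPPoint (Y n) then Y n else Y n0, id, hW, ?_,
        Function.injective_id, ?_⟩
      · intro n
        by_cases h : IsPPoint (Y n)
        · show IsPPoint (if IsPPoint (Y n) then Y n else Y n0)
          rw [if_pos h]
          exact h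
        · show IsPPoint (if IsPPoint (Y n) then Y n else Y n0)
          rw [if_neg h]
          exact hn0
      · apply Ultrafilter.ext
        intro S
        rw [Ultrafilter.mem_map, mem_fubini, mem_fubini]
        constructor
        · intro h
          refine mem_of_superset (inter_mem hP h) ?_
          rintro n ⟨h1, h2⟩
          have h1' : IsPPoint (Y n) := h1
          show {a | Nat.pair n a ∈ id ⁻¹' S} ∈ (if IsPPoint (Y n) then Y n else Y n0)
          rw [if_pos h1']
          exact h2
        · intro h
          refine mem_of_superset (inter_mem hP h) ?_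
          rintro n ⟨h1, h2⟩
          have h1' : IsPPoint (Y n) := h1
          have h3 : {a | Nat.pair n a ∈ id ⁻¹' S} ∈ (if IsPPoint (Y n) then Y n else Y n0) := h2
          rw [if_pos h1'] at h3
          exact h3
    · have hP' : {n | IsPPoint (Y n)}ᶜ ∈ W := Ultrafilter.compl_mem_iff_notMem.2 hP
      obtain ⟨n0, hn0⟩ := W.nonempty_of_mem hP'
      have hdata : ∀ n, ∃ D : Ultrafilter ℕ × (ℕ → Ultrafilter ℕ) × (ℕ → ℕ),
          IsTransIterate D.1 ∧ (∀ m, IsPPoint (D.2.1 m)) ∧ Function.Injective D.2.2 ∧
            (¬ IsPPoint (Y n) → Y n = (fubini D.1 D.2.1).map D.2.2) := by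
        intro n
        by_cases h : IsPPoint (Y n)
        · obtain ⟨W', Z, φ, h1, h2, h3, -⟩ := (ih n0).resolve_left hn0
          exact ⟨(W', Z, φ), h1, h2, h3, fun h' => absurd h h'⟩
        · obtain ⟨W', Z, φ, h1, h2, h3, h4⟩ := (ih n).resolve_left h
          exact ⟨(W', Z, φ), h1, h2, h3, fun _ => h4⟩
      choose D hD1 hD2 hD3 hD4 using hdata
      refine ⟨fubini W (fun n => (D n).1),
        fun k => (D (Nat.unpair k).1).2.1 (Nat.unpair k).2,
        fun k => Nat.pair (Nat.unpair (Nat.unpair k).1).1
          ((D (Nat.unpair (Nat.unpair k).1).1).2.2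
            (Nat.pair (Nat.unpair (Nat.unpair k).1).2 (Nat.unpair k).2)), ?_, ?_, ?_, ?_⟩
      · exact .sum _ _ hW hD1
      · intro k
        exact hD2 _ _
      · intro x y hxy
        obtain ⟨h1, h2⟩ := Nat.pair_eq_pair.1 hxy
        rw [h1] at h2
        obtain ⟨h4, h5⟩ := Nat.pair_eq_pair.1 (hD3 _ h2)
        rw [← Nat.pair_unpair x, ← Nat.pair_unpair y, h5,
          ← Nat.pair_unpair (Nat.unpair x).1, ← Nat.pair_unpair (Nat.unpair y).1, h1, h4]
      · apply Ultrafilter.ext
        intro S
        rw [Ultrafilter.mem_map, mem_fubini, mem_fubini, mem_fubini]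
        have key : ∀ n, ¬ IsPPoint (Y n) → ({a | Nat.pair n a ∈ S} ∈ Y n ↔
            {m | {b | Nat.pair n ((D n).2.2 (Nat.pair m b)) ∈ S} ∈ (D n).2.1 m} ∈ (D n).1) := by
          intro n hn
          conv_lhs => rw [hD4 n hn]
          rw [Ultrafilter.mem_map, mem_fubini]
          rfl
        have e1 : ∀ n, {m | Nat.pair n m ∈ {k | {a | Nat.pair k a ∈
            (fun k => Nat.pair (Nat.unpair (Nat.unpair k).1).1
              ((D (Nat.unpair (Nat.unpair k).1).1).2.2
                (Nat.pair (Nat.unpair (Nat.unpair k).1).2 (Nat.unpair k).2))) ⁻¹' S} ∈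
                  (D (Nat.unpair k).1).2.1 (Nat.unpair k).2}} =
            {m | {b | Nat.pair n ((D n).2.2 (Nat.pair m b)) ∈ S} ∈ (D n).2.1 m} := by
          intro n
          ext m
          simp only [mem_preimage, mem_ofPred_eq, Nat.unpair_pair]
        simp only [e1]
        constructor
        · intro h
          refine mem_of_superset (inter_mem hP' h) ?_
          rintro n ⟨h1, h2⟩
          exact (key n h1).1 h2
        · intro h
          refine mem_of_superset (inter_mem hP' h) ?_
          rintro n ⟨h1, h2⟩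
          exact (key n h1).2 h2

/-- The classification of the nonselective q-points among all iterates. -/
theorem classification (V : Ultrafilter ℕ) :
    (IsTransIterate V ∧ IsQPoint V ∧ ¬ IsSelective V) ↔
      ∃ (W : Ultrafilter ℕ) (Y : ℕ → Ultrafilter ℕ) (φ : ℕ → ℕ),
        IsTransIterate W ∧ (∀ n, IsSelective (Y n)) ∧
          (∀ n m, n ≠ m → ¬ Isomorphic (Y n) (Y m)) ∧ Function.Injective φ ∧
            V = (fubini W Y).map φ := by
  constructor
  · rintro ⟨h1, h2, h3⟩
    rcases structure_thm h1 with h | ⟨W, Y, φ, hW, hY, hφ, rfl⟩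
    · exact absurd (selective_of_pPoint_qPoint h h2) h3
    · obtain ⟨A, hA, hs, hn⟩ := criterion_mp hY (qPoint_of_map hφ h2)
      obtain ⟨e, p, he, heA, hWe⟩ := reindex hW.nonprincipal hA
      refine ⟨W.map p, fun n => Y (e n),
        φ ∘ (fun k => Nat.pair (e (Nat.unpair k).1) (Nat.unpair k).2), .iso W p hW,
        fun n => hs _ (heA n), fun n m hnm => hn _ (heA n) _ (heA m) (fun h => hnm (he h)),
        hφ.comp (pairMap_injective he), ?_⟩
      conv_lhs => rw [← hWe, fubini_map]
      apply Ultrafilter.ext
      intro S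
      rw [Ultrafilter.mem_map, Ultrafilter.mem_map, Ultrafilter.mem_map]
      rfl
  · rintro ⟨W, Y, φ, hW, hY, hn, hφ, rfl⟩
    have hT : IsTransIterate (fubini W Y) :=
      .sum W Y hW (fun n => .base _ (isSelective_pPoint (hY n)))
    exact ⟨hT.map hφ, qPoint_map (fubini_qPoint hY hn) hφ, fun h =>
      fubini_not_selective hW.nonprincipal (fun n => (hY n).1) (selective_of_map hφ h)⟩

end Pool.Agent.KS6_4.QP
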