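import Mathlib
import Pool.Agent.KS6_4.QP.Str

set_option autoImplicit false

/-!
# Uniqueness of the representation
-/

namespace Pool.Agent.KS6_4.QP

open Set Filter Pool.Agent.V11279.QP

theorem pair_section_infinite {W : Ultrafilter ℕ} {Y : ℕ → Ultrafilter ℕ}
    (hY : ∀ n, Nonprincipal (Y n)) {X : Set ℕ} (hX : X ∈ fubini W Y) {A : Set ℕ} (hA : A ∈ W) :
    ∃ n ∈ A, ∃ a b, a ≠ b ∧ Nat.pair n a ∈ X ∧ Nat.pair n b ∈ X := by
  rw [mem_fubini] at hX
  obtain ⟨n, hn1, hn2⟩ := W.nonempty_of_mem (inter_mem hX hA)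
  have hinf := (hY n).infinite hn1
  obtain ⟨a, ha⟩ := hinf.nonempty
  obtain ⟨b, hb, hab⟩ := hinf.exists_gt a
  exact ⟨n, hn2, a, b, hab.ne, ha, hb⟩

/-- pairwise different p-points have pairwise disjoint members -/
theorem disjoint_members {Z : ℕ → Ultrafilter ℕ} (hZ : ∀ n, IsPPoint (Z n)) {A : Set ℕ}
    (hne : ∀ n ∈ A, ∀ m ∈ A, n ≠ m → Z n ≠ Z m) :
    ∃ B : ℕ → Set ℕ, (∀ n, B n ∈ Z n) ∧ ∀ n ∈ A, ∀ m ∈ A, n ≠ m → Disjoint (B n) (B m) := by
  classical
  have h1 : ∀ n, ∃ B ∈ Z n, ∀ m ∈ A, n ∈ A → m ≠ n → B ∉ Z m := by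
    intro n
    have hC : ∀ m, ∃ C ∈ Z n, m ∈ A → n ∈ A → m ≠ n → C ∉ Z m := by
      intro m
      by_cases h : m ∈ A ∧ n ∈ A ∧ m ≠ n
      · by_contra hcon
        push Not at hcon
        have h5 : Z m = Z n := Ultrafilter.coe_le_coe.1 (fun s hs => (hcon s hs).2.2.2)
        exact hne n h.2.1 m h.1 h.2.2.symm h5.symm
      · exact ⟨univ, univ_mem, fun a b c => absurd ⟨a, b, c⟩ h⟩
    choose C hC1 hC2 using hC
    obtain ⟨X, hX, hXf⟩ := (hZ n).2 C hC1
    refine ⟨X, hX, fun m hm hn hmn hmem => ?_⟩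
    have hsub : X ⊆ C m ∪ X \ C m := by
      intro x hx
      by_cases hxC : x ∈ C m
      · exact Or.inl hxC
      · exact Or.inr ⟨hx, hxC⟩
    rcases Ultrafilter.union_mem_iff.1 (mem_of_superset hmem hsub) with h | h
    · exact hC2 m hm hn hmn h
    · exact (hZ m).1.finite_notMem (hXf m) h
  choose B hB1 hB2 using h1
  refine ⟨fun n => B n \ ⋃ m ∈ {m | m < n ∧ m ∈ A ∧ n ∈ A}, B m, fun n => ?_, ?_⟩
  · have hfin : {m | m < n ∧ m ∈ A ∧ n ∈ A}.Finite := (finite_Iio n).subset (fun m hm => hm.1)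
    have : (⋃ m ∈ {m | m < n ∧ m ∈ A ∧ n ∈ A}, B m) ∉ Z n := by
      intro hmem
      obtain ⟨m, hm, hm'⟩ := (Ultrafilter.finite_biUnion_mem_iff (f := Z n) hfin).1 hmem
      exact hB2 m n hm.2.2 hm.2.1 hm.1.ne' hm'
    exact inter_mem (hB1 n) (Ultrafilter.compl_mem_iff_notMem.2 this)
  · have key : ∀ n ∈ A, ∀ m ∈ A, n < m → Disjoint (B n \ ⋃ m ∈ {m | m < n ∧ m ∈ A ∧ n ∈ A}, B m)
        (B m \ ⋃ k ∈ {k | k < m ∧ k ∈ A ∧ m ∈ A}, B k) := by
      intro n hn m hm hnm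
      rw [Set.disjoint_left]
      rintro x ⟨hx, -⟩ ⟨-, hx'⟩
      apply hx'
      simp only [mem_iUnion]
      exact ⟨n, ⟨hnm, hn, hm⟩, hx⟩
    intro n hn m hm hnm
    rcases lt_or_gt_of_ne hnm with h | h
    · exact key n hn m hm h
    · exact (key m hm n hn h).symm

/-- Every map is, on a member of a limit of pairwise nonisomorphic selective ultrafilters, injective
or a function of the index. -/
theorem dichotomy {W : Ultrafilter ℕ} {Y : ℕ → Ultrafilter ℕ}
    (hY : ∀ n, IsSelective (Y n)) (hne : ∀ n m, n ≠ m → ¬ Isomorphic (Y n) (Y m)) (f : ℕ → ℕ) :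
    (∃ T ∈ fubini W Y, InjOn f T) ∨
      ∃ c : ℕ → ℕ, {n | {a | f (Nat.pair n a) = c n} ∈ Y n} ∈ W := by
  classical
  let g : ℕ → ℕ → ℕ := fun n a => f (Nat.pair n a)
  by_cases hc : {n | ∃ c, {a | g n a = c} ∈ Y n} ∈ W
  · right
    have : ∀ n, ∃ c, (∃ c, {a | g n a = c} ∈ Y n) → {a | g n a = c} ∈ Y n := by
      intro n
      by_cases h : ∃ c, {a | g n a = c} ∈ Y n
      · obtain ⟨c, hc⟩ := h
        exact ⟨c, fun _ => hc⟩
      · exact ⟨0, fun h' => absurd h' h⟩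
    choose c hc' using this
    exact ⟨c, mem_of_superset hc (fun n hn => hc' n hn)⟩
  · left
    have hA := Ultrafilter.compl_mem_iff_notMem.2 hc
    set A : Set ℕ := {n | ∃ c, {a | g n a = c} ∈ Y n}ᶜ with hAdef
    have hinj : ∀ n ∈ A, ∃ S ∈ Y n, InjOn (g n) S := by
      intro n hn
      rcases (hY n).2 (g n) with ⟨S, hS, c, hc⟩ | h
      · exact absurd ⟨c, mem_of_superset hS (fun x hx => hc x hx)⟩ hn
      · exact h
    have hinj' : ∀ n, ∃ S ∈ Y n, n ∈ A → InjOn (g n) S := by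
      intro n
      by_cases hn : n ∈ A
      · obtain ⟨S, h1, h2⟩ := hinj n hn
        exact ⟨S, h1, fun _ => h2⟩
      · exact ⟨univ, univ_mem, fun h => absurd h hn⟩
    choose S hS hSi using hinj'
    -- the images of the `Y n` under `g n` are different p-points
    let Z : ℕ → Ultrafilter ℕ := fun n => if n ∈ A then (Y n).map (g n) else Y n
    have hZA : ∀ n ∈ A, Z n = (Y n).map (g n) := fun n hn => if_pos hn
    have hZp : ∀ n, IsPPoint (Z n) := by
      intro n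
      by_cases hn : n ∈ A
      · rw [hZA n hn]
        obtain ⟨e, S', hS', he⟩ := exists_perm (hY n).1 (hS n) (hSi n hn)
        rw [← map_eq_of_eqOn hS' he]
        exact pPoint_map (isSelective_pPoint (hY n)) e.injective
      · show IsPPoint (if n ∈ A then (Y n).map (g n) else Y n)
        rw [if_neg hn]
        exact isSelective_pPoint (hY n)
    have hZne : ∀ n ∈ A, ∀ m ∈ A, n ≠ m → Z n ≠ Z m := by
      intro n hn m hm hnm
      rw [hZA n hn, hZA m hm]
      exact map_ne (hY n).1 (hY m).1 (hne n m hnm) (hS n) (hSi n hn) (hS m) (hSi m hm)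
    obtain ⟨B, hB, hBd⟩ := disjoint_members hZp hZne
    let T : Set ℕ := {k | (Nat.unpair k).1 ∈ A ∧ (Nat.unpair k).2 ∈ S (Nat.unpair k).1 ∧
      g (Nat.unpair k).1 (Nat.unpair k).2 ∈ B (Nat.unpair k).1}
    have hT : T ∈ fubini W Y := by
      rw [mem_fubini]
      refine mem_of_superset hA ?_
      intro n hn
      have h1 : g n ⁻¹' (B n) ∈ Y n := by
        have := hB n
        rw [hZA n hn] at this
        exact Ultrafilter.mem_map.1 this
      refine mem_of_superset (inter_mem (hS n) h1) ?_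
      rintro a ⟨ha1, ha2⟩
      show (Nat.unpair (Nat.pair n a)).1 ∈ A ∧ (Nat.unpair (Nat.pair n a)).2 ∈
        S (Nat.unpair (Nat.pair n a)).1 ∧ g (Nat.unpair (Nat.pair n a)).1
          (Nat.unpair (Nat.pair n a)).2 ∈ B (Nat.unpair (Nat.pair n a)).1
      simp only [Nat.unpair_pair]
      exact ⟨hn, ha1, ha2⟩
    refine ⟨T, hT, ?_⟩
    intro x hx y hy hxy
    obtain ⟨hx1, hx2, hx3⟩ := hx
    obtain ⟨hy1, hy2, hy3⟩ := hy
    have hgx : g (Nat.unpair x).1 (Nat.unpair x).2 = f x := by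
      show f (Nat.pair (Nat.unpair x).1 (Nat.unpair x).2) = _
      rw [Nat.pair_unpair]
    have hgy : g (Nat.unpair y).1 (Nat.unpair y).2 = f y := by
      show f (Nat.pair (Nat.unpair y).1 (Nat.unpair y).2) = _
      rw [Nat.pair_unpair]
    have heq : (Nat.unpair x).1 = (Nat.unpair y).1 := by
      by_contra hcon
      refine (Set.disjoint_left.1 (hBd _ hx1 _ hy1 hcon)) hx3 ?_
      rw [hgx, hxy, ← hgy]
      exact hy3
    have h2 : (Nat.unpair x).2 = (Nat.unpair y).2 := by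
      have := hSi _ hx1 hx2 (show (Nat.unpair y).2 ∈ S (Nat.unpair x).1 by
        rw [heq]; exact hy2)
      apply this
      rw [hgx, hxy, ← hgy, heq]
    rw [← Nat.pair_unpair x, ← Nat.pair_unpair y, heq, h2]

/-- The ultrafilters Rudin-Keisler below a limit of pairwise nonisomorphic selective ultrafilters
are the ones isomorphic to it and the ones below the index ultrafilter. -/
theorem rk_below {W : Ultrafilter ℕ} {Y : ℕ → Ultrafilter ℕ}
    (hY : ∀ n, IsSelective (Y n)) (hne : ∀ n m, n ≠ m → ¬ Isomorphic (Y n) (Y m)) (f : ℕ → ℕ) :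
    Isomorphic (fubini W Y) ((fubini W Y).map f) ∨ ∃ c : ℕ → ℕ, (fubini W Y).map f = W.map c := by
  rcases dichotomy (W := W) hY hne f with ⟨T, hT, hi⟩ | ⟨c, hc⟩
  · left
    obtain ⟨e, X, hX, he⟩ := exists_perm (fubini_nonprincipal (fun n => (hY n).1)) hT hi
    exact ⟨e, map_eq_of_eqOn hX he⟩
  · right
    refine ⟨c, ?_⟩
    symm
    apply Ultrafilter.coe_le_coe.1
    intro S hS
    have hS' : {n | {a | Nat.pair n a ∈ f ⁻¹' S} ∈ Y n} ∈ W := by
      rw [← mem_fubini]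
      exact Ultrafilter.mem_map.1 hS
    show S ∈ W.map c
    rw [Ultrafilter.mem_map]
    refine mem_of_superset (inter_mem hS' hc) ?_
    rintro n ⟨h1, h2⟩
    obtain ⟨a, ha1, ha2⟩ := (Y n).nonempty_of_mem (inter_mem h1 h2)
    have ha1' : f (Nat.pair n a) ∈ S := ha1
    have ha2' : f (Nat.pair n a) = c n := ha2
    show c n ∈ S
    rw [← ha2']
    exact ha1'

/-- A map between two limits, the first one of selective ultrafilters, is compatible with the
projections to the indices. -/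
theorem half {W W' : Ultrafilter ℕ} {Y Y' : ℕ → Ultrafilter ℕ}
    (hY : ∀ n, IsSelective (Y n)) (hne : ∀ n m, n ≠ m → ¬ Isomorphic (Y n) (Y m))
    (hY' : ∀ n, Nonprincipal (Y' n)) {θ : ℕ → ℕ} (hU : (fubini W Y).map θ = fubini W' Y') :
    ∃ c : ℕ → ℕ, {n | {a | (Nat.unpair (θ (Nat.pair n a))).1 = c n} ∈ Y n} ∈ W := by
  rcases dichotomy (W := W) hY hne (fun k => (Nat.unpair (θ k)).1) with ⟨T, hT, hTi⟩ | h
  · exfalso
    have hTX : θ '' T ∈ fubini W' Y' := by
      rw [← hU]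
      exact image_mem_map hT
    obtain ⟨m, -, a, b, hab, ha, hb⟩ := pair_section_infinite hY' hTX (univ_mem : univ ∈ W')
    obtain ⟨x, hx1, hxe⟩ := ha
    obtain ⟨y, hy1, hye⟩ := hb
    have hxy : x = y := by
      apply hTi hx1 hy1
      show (Nat.unpair (θ x)).1 = (Nat.unpair (θ y)).1
      rw [hxe, hye, Nat.unpair_pair, Nat.unpair_pair]
    rw [hxy, hye] at hxe
    exact hab (Nat.pair_eq_pair.1 hxe).2.symm
  · exact h

theorem mem_fubini_fst {W : Ultrafilter ℕ} {Y : ℕ → Ultrafilter ℕ} {S : Set ℕ} :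
    {k | (Nat.unpair k).1 ∈ S} ∈ fubini W Y ↔ S ∈ W := by
  rw [mem_fubini]
  constructor
  · intro h
    refine mem_of_superset h ?_
    intro n hn
    obtain ⟨a, ha⟩ := (Y n).nonempty_of_mem hn
    have ha' : (Nat.unpair (Nat.pair n a)).1 ∈ S := ha
    rwa [Nat.unpair_pair] at ha'
  · intro h
    refine mem_of_superset h ?_
    intro n hn
    refine mem_of_superset univ_mem ?_
    intro a _
    show (Nat.unpair (Nat.pair n a)).1 ∈ S
    rw [Nat.unpair_pair]
    exact hn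

theorem uniq_aux {W W' : Ultrafilter ℕ} {Y Y' : ℕ → Ultrafilter ℕ} (hW : Nonprincipal W)
    (hY : ∀ n, IsSelective (Y n)) (hne : ∀ n m, n ≠ m → ¬ Isomorphic (Y n) (Y m))
    (hY' : ∀ n, IsSelective (Y' n)) (hne' : ∀ n m, n ≠ m → ¬ Isomorphic (Y' n) (Y' m))
    {θ θ' : ℕ → ℕ} (hU : (fubini W Y).map θ = fubini W' Y')
    (hU' : (fubini W' Y').map θ' = fubini W Y) (hθ : {k | θ' (θ k) = k} ∈ fubini W Y) :
    ∃ p : Equiv.Perm ℕ, W.map p = W' ∧ {n | Isomorphic (Y n) (Y' (p n))} ∈ W := by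
  classical
  obtain ⟨c, hc⟩ := half hY hne (fun n => (hY' n).1) hU
  obtain ⟨c', hc'⟩ := half hY' hne' (fun n => (hY n).1) hU'
  have hZ1 : {k | (Nat.unpair (θ k)).1 = c (Nat.unpair k).1} ∈ fubini W Y := by
    rw [mem_fubini]
    refine mem_of_superset hc ?_
    intro n hn
    refine mem_of_superset hn ?_
    intro a ha
    show (Nat.unpair (θ (Nat.pair n a))).1 = c (Nat.unpair (Nat.pair n a)).1
    rw [Nat.unpair_pair]
    exact ha
  have hZ2 : {k | (Nat.unpair (θ' k)).1 = c' (Nat.unpair k).1} ∈ fubini W' Y' := by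
    rw [mem_fubini]
    refine mem_of_superset hc' ?_
    intro n hn
    refine mem_of_superset hn ?_
    intro a ha
    show (Nat.unpair (θ' (Nat.pair n a))).1 = c' (Nat.unpair (Nat.pair n a)).1
    rw [Nat.unpair_pair]
    exact ha
  -- `c'` is a left inverse of `c` on a member of `W`
  have hA : {n | c' (c n) = n} ∈ W := by
    rw [← mem_fubini_fst (Y := Y)]
    have h2 : θ ⁻¹' {k | (Nat.unpair (θ' k)).1 = c' (Nat.unpair k).1} ∈ fubini W Y := by
      rw [← hU] at hZ2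
      exact Ultrafilter.mem_map.1 hZ2
    refine mem_of_superset (inter_mem (inter_mem hθ hZ1) h2) ?_
    rintro k ⟨⟨h3, h4⟩, h5⟩
    have h3' : θ' (θ k) = k := h3
    have h4' : (Nat.unpair (θ k)).1 = c (Nat.unpair k).1 := h4
    have h5' : (Nat.unpair (θ' (θ k))).1 = c' (Nat.unpair (θ k)).1 := h5
    show c' (c (Nat.unpair k).1) = (Nat.unpair k).1
    rw [← h4', ← h5', h3']
  have hWc : W.map c = W' := by
    symm
    apply Ultrafilter.coe_le_coe.1
    intro S hS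
    have hS' : c ⁻¹' S ∈ W := Ultrafilter.mem_map.1 hS
    show S ∈ W'
    rw [← mem_fubini_fst (Y := Y'), ← hU, Ultrafilter.mem_map]
    refine mem_of_superset (inter_mem hZ1 (mem_fubini_fst.2 hS')) ?_
    rintro k ⟨h1, h2⟩
    have h1' : (Nat.unpair (θ k)).1 = c (Nat.unpair k).1 := h1
    show (Nat.unpair (θ k)).1 ∈ S
    rw [h1']
    exact h2
  have hci : InjOn c {n | c' (c n) = n} := by
    intro n hn m hm hnm
    have hn' : c' (c n) = n := hn
    have hm' : c' (c m) = m := hm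
    rw [← hn', ← hm', hnm]
  obtain ⟨p, X', hX', hp⟩ := exists_perm hW hA hci
  refine ⟨p, (map_eq_of_eqOn hX' hp).trans hWc, ?_⟩
  -- the leaves
  let h : ℕ → ℕ → ℕ := fun n a => (Nat.unpair (θ (Nat.pair n a))).2
  have hθ2 := hθ
  rw [mem_fubini] at hθ2
  have hgood : {n | (Y n).map (h n) = Y' (c n)} ∈ W := by
    by_contra hcon
    have hbad := Ultrafilter.compl_mem_iff_notMem.2 hcon
    have hS : ∀ n, ∃ S, (Y n).map (h n) ≠ Y' (c n) → (S ∈ (Y n).map (h n) ∧ S ∉ Y' (c n)) := by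
      intro n
      by_cases hn : (Y n).map (h n) = Y' (c n)
      · exact ⟨univ, fun h' => absurd hn h'⟩
      · by_contra hcon2
        push Not at hcon2
        apply hn
        symm
        apply Ultrafilter.coe_le_coe.1
        intro S hS
        obtain ⟨-, h2⟩ := hcon2 S
        exact h2 hS
    choose S hS using hS
    let T : Set ℕ := {k | S (c' (Nat.unpair k).1) ∉ Y' (c (c' (Nat.unpair k).1)) ∧
      (Nat.unpair k).2 ∈ S (c' (Nat.unpair k).1)}
    have hT : T ∈ fubini W' Y' := by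
      rw [← hU, Ultrafilter.mem_map, mem_fubini]
      refine mem_of_superset (inter_mem (inter_mem hbad hA) hc) ?_
      rintro n ⟨⟨h1, h2⟩, h3⟩
      have h1' : (Y n).map (h n) ≠ Y' (c n) := h1
      have h2' : c' (c n) = n := h2
      have h4 : h n ⁻¹' S n ∈ Y n := Ultrafilter.mem_map.1 (hS n h1').1
      refine mem_of_superset (inter_mem h3 h4) ?_
      rintro a ⟨h5, h6⟩
      have h5' : (Nat.unpair (θ (Nat.pair n a))).1 = c n := h5
      have h6' : (Nat.unpair (θ (Nat.pair n a))).2 ∈ S n := h6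
      show S (c' (Nat.unpair (θ (Nat.pair n a))).1) ∉
        Y' (c (c' (Nat.unpair (θ (Nat.pair n a))).1)) ∧
        (Nat.unpair (θ (Nat.pair n a))).2 ∈ S (c' (Nat.unpair (θ (Nat.pair n a))).1)
      rw [h5', h2']
      exact ⟨(hS n h1').2, h6'⟩
    rw [mem_fubini, ← hWc, Ultrafilter.mem_map] at hT
    obtain ⟨n, ⟨hn1, hn2⟩, hn3⟩ := W.nonempty_of_mem (inter_mem (inter_mem hbad hA) hT)
    have hn1' : (Y n).map (h n) ≠ Y' (c n) := hn1
    have hn2' : c' (c n) = n := hn2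
    apply (hS n hn1').2
    refine mem_of_superset (show {b | Nat.pair (c n) b ∈ T} ∈ Y' (c n) from hn3) ?_
    rintro b ⟨-, hb⟩
    rw [Nat.unpair_pair] at hb
    have hb' : b ∈ S (c' (c n)) := hb
    rwa [hn2'] at hb'
  refine mem_of_superset (inter_mem (inter_mem (inter_mem hgood hX') hc) hθ2) ?_
  rintro n ⟨⟨⟨h1, h2⟩, h3⟩, h4⟩
  have h1' : (Y n).map (h n) = Y' (c n) := h1
  have hinj : InjOn (h n) ({a | (Nat.unpair (θ (Nat.pair n a))).1 = c n} ∩
      {a | Nat.pair n a ∈ {k | θ' (θ k) = k}}) := by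
    rintro a ⟨ha1, ha2⟩ b ⟨hb1, hb2⟩ hab
    have ha1' : (Nat.unpair (θ (Nat.pair n a))).1 = c n := ha1
    have hb1' : (Nat.unpair (θ (Nat.pair n b))).1 = c n := hb1
    have ha2' : θ' (θ (Nat.pair n a)) = Nat.pair n a := ha2
    have hb2' : θ' (θ (Nat.pair n b)) = Nat.pair n b := hb2
    have hab' : (Nat.unpair (θ (Nat.pair n a))).2 = (Nat.unpair (θ (Nat.pair n b))).2 := hab
    have h5 : θ (Nat.pair n a) = θ (Nat.pair n b) := by
      rw [← Nat.pair_unpair (θ (Nat.pair n a)), ← Nat.pair_unpair (θ (Nat.pair n b)), ha1', hb1',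
        hab']
    have h6 : Nat.pair n a = Nat.pair n b := by
      rw [← ha2', ← hb2', h5]
    exact (Nat.pair_eq_pair.1 h6).2
  obtain ⟨e, X2, hX2, he⟩ := exists_perm (hY n).1 (inter_mem h3 h4) hinj
  refine ⟨e, ?_⟩
  rw [map_eq_of_eqOn hX2 he, h1', hp n h2]

/-- **Uniqueness.** The index ultrafilter of a limit of pairwise nonisomorphic selective
ultrafilters is determined up to isomorphism, and so are almost all the selective ultrafilters. -/
theorem uniqueness {W W' : Ultrafilter ℕ} {Y Y' : ℕ → Ultrafilter ℕ} {φ φ' : ℕ → ℕ}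
    (hW : Nonprincipal W)
    (hY : ∀ n, IsSelective (Y n)) (hne : ∀ n m, n ≠ m → ¬ Isomorphic (Y n) (Y m))
    (hY' : ∀ n, IsSelective (Y' n)) (hne' : ∀ n m, n ≠ m → ¬ Isomorphic (Y' n) (Y' m))
    (hφ : Function.Injective φ) (hφ' : Function.Injective φ')
    (h : (fubini W Y).map φ = (fubini W' Y').map φ') :
    ∃ p : Equiv.Perm ℕ, W.map p = W' ∧ {n | Isomorphic (Y n) (Y' (p n))} ∈ W := by
  obtain ⟨ψ, hψ⟩ := hφ.hasLeftInverse
  obtain ⟨ψ', hψ'⟩ := hφ'.hasLeftInverse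
  have hm : ∀ (U : Ultrafilter ℕ) (f g : ℕ → ℕ), (U.map f).map g = U.map (g ∘ f) := by
    intro U f g
    apply Ultrafilter.ext
    intro S
    rw [Ultrafilter.mem_map, Ultrafilter.mem_map, Ultrafilter.mem_map]
    rfl
  have hid : ∀ U : Ultrafilter ℕ, U.map id = U := by
    intro U
    apply Ultrafilter.ext
    intro S
    rw [Ultrafilter.mem_map]
    rfl
  have e1 : ψ ∘ φ = id := funext hψ
  have e2 : ψ' ∘ φ' = id := funext hψ'
  refine uniq_aux hW hY hne hY' hne' (θ := ψ' ∘ φ) (θ' := ψ ∘ φ') ?_ ?_ ?_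
  · rw [← hm, h, hm, e2, hid]
  · rw [← hm, ← h, hm, e1, hid]
  · have hr : range φ' ∈ (fubini W Y).map φ := by
      rw [h, Ultrafilter.mem_map]
      exact mem_of_superset univ_mem (fun x _ => ⟨x, rfl⟩)
    refine mem_of_superset (Ultrafilter.mem_map.1 hr) ?_
    rintro k ⟨y, hy⟩
    show ψ (φ' (ψ' (φ k))) = k
    rw [← hy, hψ' y, hy, hψ k]

end Pool.Agent.KS6_4.QP
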